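import Pool.Agent.Helper88.GM.Goals

/-! # Large gaps between primes in short intervals: any starting point -/

set_option autoImplicit false

open Finset Filter Topology

open scoped Classical

namespace Pool.Agent.Helper88.GM

/-- the iterated logarithms of `h / 2` -/
theorem halfLogs {l1 m1 : ℝ} (p1 : 0 < l1) (h1 : l1 / 2 ≤ m1) (h2 : m1 ≤ l1)
    (h4 : 10 ≤ Real.log l1) (h5 : 10 ≤ Real.log (Real.log l1))
    (h6 : 10 ≤ Real.log (Real.log (Real.log l1))) :
    Real.log l1 / 2 ≤ Real.log m1 ∧ Real.log (Real.log m1) ≤ Real.log (Real.log l1) ∧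
      Real.log (Real.log (Real.log l1)) / 2 ≤ Real.log (Real.log (Real.log m1)) ∧
      0 < Real.log (Real.log m1) := by
  have hlog2 := Real.log_two_lt_d9
  have p2 : 0 < m1 := by linarith
  have a1 : Real.log l1 / 2 ≤ Real.log m1 := by
    have := Real.log_le_log (by positivity) h1
    rw [Real.log_div p1.ne' (by norm_num)] at this
    linarith
  have a2 : Real.log m1 ≤ Real.log l1 := Real.log_le_log p2 h2
  have a3 : Real.log (Real.log m1) ≤ Real.log (Real.log l1) :=
    Real.log_le_log (by linarith) a2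
  have a4 : Real.log (Real.log l1) / 2 ≤ Real.log (Real.log m1) := by
    have := Real.log_le_log (by linarith) a1
    rw [Real.log_div (by linarith) (by norm_num)] at this
    linarith
  have a5 : Real.log (Real.log (Real.log l1)) / 2 ≤ Real.log (Real.log (Real.log m1)) := by
    have := Real.log_le_log (by linarith) a4
    rw [Real.log_div (by linarith) (by norm_num)] at this
    linarith
  exact ⟨a1, a3, a5, by linarith⟩

/-- the statement for all intervals -/
def StmtSA : Prop := ∃ c : ℝ, 0 < c ∧ ∃ H : ℝ, ∀ h : ℝ, H ≤ h → ∀ u : ℝ, 0 ≤ u → ∃ n : ℕ,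
  (Nat.nth Nat.Prime n : ℝ) ≤ u + h ∧ u < Nat.nth Nat.Prime (n + 1) ∧
  c * (Real.log h * Real.log (Real.log h) ^ 2 *
      Real.log (Real.log (Real.log (Real.log h))) / Real.log (Real.log (Real.log h)) ^ 2)
    ≤ (Nat.nth Nat.Prime (n + 1) : ℝ) - Nat.nth Nat.Prime n - 1

theorem sa (hSI : StmtSI) : StmtSA := by
  obtain ⟨c, hc, H, hSI⟩ := hSI
  have t1 : Tendsto Real.log atTop atTop := Real.tendsto_log_atTop
  have t2 := t1.comp t1
  have t3 := t1.comp t2
  have t4 := t1.comp t3
  obtain ⟨X, hX⟩ := eventually_atTop.1 ((t1.eventually_ge_atTop 10).and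
    ((t2.eventually_ge_atTop 10).and
    ((t3.eventually_ge_atTop 10).and (t4.eventually_ge_atTop 10))))
  refine ⟨c / 16, by positivity, max (max X (2 * H)) 2, fun h hh u hu => ?_⟩
  have hX1 : X ≤ h := le_trans (le_trans (le_max_left _ _) (le_max_left _ _)) hh
  have hH1 : 2 * H ≤ h := le_trans (le_trans (le_max_right _ _) (le_max_left _ _)) hh
  have h2 : 2 ≤ h := le_trans (le_max_right _ _) hh
  obtain ⟨a1, a2, a3, a4⟩ := hX h hX1
  simp only [Function.comp] at a2 a3 a4
  have hlog2 := Real.log_two_lt_d9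
  have hlog2' : 0 < Real.log 2 := Real.log_pos (by norm_num)
  have e1 : Real.log (h / 2) = Real.log h - Real.log 2 :=
    Real.log_div (by linarith) (by norm_num)
  have e2 : Real.log h / 2 ≤ Real.log (h / 2) := by rw [e1]; linarith
  have e3 : Real.log (h / 2) ≤ Real.log h := by rw [e1]; linarith
  obtain ⟨b1, b2, b3, b4⟩ := halfLogs (by linarith) e2 e3 a2 a3 a4
  set l1 := Real.log h with hl1
  set l2 := Real.log l1 with hl2
  set l3 := Real.log l2 with hl3
  set l4 := Real.log l3 with hl4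
  set m1 := Real.log (h / 2) with hm1
  set m2 := Real.log m1 with hm2
  set m3 := Real.log m2 with hm3
  set m4 := Real.log m3 with hm4
  have key : c / 16 * (l1 * l2 ^ 2 * l4 / l3 ^ 2) ≤ c * (m1 * m2 ^ 2 * m4 / m3 ^ 2) := by
    have f1 : (l1 / 2) * (l2 / 2) ^ 2 * (l4 / 2) / l3 ^ 2 ≤ m1 * m2 ^ 2 * m4 / m3 ^ 2 := by
      apply div_le_div₀
      · have : 0 ≤ m1 := by linarith
        have : 0 ≤ m4 := by linarith
        positivity
      · have : 0 ≤ m1 := by linarith
        have : 0 ≤ m4 := by linarith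
        gcongr
      · positivity
      · gcongr
    calc c / 16 * (l1 * l2 ^ 2 * l4 / l3 ^ 2)
        = c * ((l1 / 2) * (l2 / 2) ^ 2 * (l4 / 2) / l3 ^ 2) := by ring
      _ ≤ _ := mul_le_mul_of_nonneg_left f1 hc.le
  rcases le_total (h / 2) u with hu2 | hu2
  · obtain ⟨n, n1, n2, n3⟩ := hSI (h / 2) (by linarith) u hu2
    exact ⟨n, by linarith, n2, key.trans n3⟩
  · obtain ⟨n, n1, n2, n3⟩ := hSI (h / 2) (by linarith) (h / 2) le_rfl
    exact ⟨n, by linarith, by linarith, key.trans n3⟩

end Pool.Agent.Helper88.GM
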