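import Pool.Agent.Helper88.GM.MainA
import Pool.Agent.Helper88.GM.SIAll
import Pool.Agent.Helper31.GM.GL
import Pool.Agent.Helper49.GM.TS
import Pool.Agent.Helper32.GM.S1

/-!
# Large gaps between the primes in short intervals
-/

namespace Pool.Agent.Helper88.GM

theorem tsMain : StmtTS := tsA Pool.Agent.Helper31.GM.gu Pool.Agent.Helper49.GM.ts

theorem mainSA : StmtSA := sa (mainSIA Pool.Agent.Helper31.GM.gw Pool.Agent.Helper32.GM.s1 tsMain)

end Pool.Agent.Helper88.GM
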