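import Pool.Agent.Helper88.GM.Goals
import Pool.Agent.Helper88.RR.KX

/-! # All primes at the points of `P` can be avoided, in any interval: in terms of `x` -/

set_option autoImplicit false

open Finset Filter Topology

open scoped Classical

namespace Pool.Agent.Helper88.GM

open Pool.Agent.Helper88.PP (pr Rg om Sf SS uu vv ee LA VV QQ cost nc dd)
open Pool.Agent.Helper88.RR (scale)

theorem cube : ∃ E0 : ℕ, ∀ E : ℕ, E0 ≤ E → (3 * Real.log E) ^ 3 ≤ E ∧ 0 ≤ Real.log E := by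
  have h1 : ∀ᶠ u : ℝ in atTop, ‖Real.log u ^ 3‖ ≤ 1 / 27 * ‖id u‖ :=
    (Asymptotics.isLittleO_iff.1 Real.isLittleO_pow_log_id_atTop) (by positivity)
  obtain ⟨E0, hE0⟩ := eventually_atTop.1 (tendsto_natCast_atTop_atTop.eventually
    (h1.and (eventually_ge_atTop (1 : ℝ))))
  refine ⟨E0, fun E hE => ?_⟩
  obtain ⟨a1, a2⟩ := hE0 E hE
  have a3 : 0 ≤ Real.log (E : ℝ) := Real.log_nonneg a2
  rw [id, Real.norm_of_nonneg (by positivity), Real.norm_of_nonneg (by linarith)] at a1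
  refine ⟨?_, a3⟩
  rw [mul_pow]
  linarith

theorem kx (h : StmtKI) : StmtKX := by
  obtain ⟨c, hc, E0, hKI⟩ := h
  obtain ⟨C, hC, hmp⟩ := Pool.Agent.Helper37.PP.mp
  obtain ⟨E1, hE1⟩ := scale
  obtain ⟨E2, hE2⟩ := cube
  have hlog : Tendsto (fun x : ℕ => Real.log (x : ℝ)) atTop atTop :=
    Real.tendsto_log_atTop.comp tendsto_natCast_atTop_atTop
  obtain ⟨x0, hx0⟩ := eventually_atTop.1 (hlog.eventually_ge_atTop
    (4 / 3 * ((max E0 (max E1 E2) : ℕ) : ℝ) ^ 2))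
  refine ⟨c / (12 * C), by positivity, x0, ?_⟩
  intro x y hx hy1 hy2 u v Q b hIn hxu P hP hPc
  set l := Real.log x with hl
  have hlx := hx0 x hx
  have hl0 : 0 ≤ 3 / 4 * l := by
    have : (0 : ℝ) ≤ 4 / 3 * ((max E0 (max E1 E2) : ℕ) : ℝ) ^ 2 := by positivity
    linarith
  set E := ⌊Real.sqrt (3 / 4 * l)⌋₊ with hE
  have hEE : max E0 (max E1 E2) ≤ E := by
    rw [hE]
    apply Nat.le_floor
    apply Real.le_sqrt_of_sq_le
    linarith
  have hEa : (E : ℝ) ^ 2 ≤ 3 / 4 * l := by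
    have h1 : (E : ℝ) ≤ Real.sqrt (3 / 4 * l) := Nat.floor_le (Real.sqrt_nonneg _)
    calc (E : ℝ) ^ 2 ≤ Real.sqrt (3 / 4 * l) ^ 2 := pow_le_pow_left₀ (Nat.cast_nonneg _) h1 2
      _ = 3 / 4 * l := Real.sq_sqrt hl0
  have hEb : 3 / 4 * l < ((E : ℝ) + 1) ^ 2 := by
    have h1 : Real.sqrt (3 / 4 * l) < (E : ℝ) + 1 := Nat.lt_floor_add_one _
    calc 3 / 4 * l = Real.sqrt (3 / 4 * l) ^ 2 := (Real.sq_sqrt hl0).symm
      _ < ((E : ℝ) + 1) ^ 2 := pow_lt_pow_left₀ h1 (Real.sqrt_nonneg _) (by norm_num)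
  obtain ⟨z, z1, z2, z3, z4, z5, z6, z7, z8⟩ :=
    hE1 E x (le_trans (le_max_left _ _) (le_trans (le_max_right _ _) hEE)) hEa hEb
  have hcu : Real.log (Real.log x) ^ 3 ≤ E := by
    obtain ⟨a1, a2⟩ := hE2 E (le_trans (le_max_right _ _) (le_trans (le_max_right _ _) hEE))
    have h1 : 0 ≤ Real.log (Real.log x) := Real.log_nonneg (by linarith)
    exact (pow_le_pow_left₀ h1 z7 3).trans a1
  refine hKI E z x y (le_trans (le_max_left _ _) hEE) ⟨z1, z3, z4, hy1, hy2, hcu⟩ u v Q b hIn hxu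
    P hP ?_
  have hyz : y ≤ z := by
    have : (y : ℝ) ≤ z := hy2.trans z6
    exact_mod_cast this
  have hy2' : 2 ≤ y := by
    have : (2 : ℝ) ≤ y := z8.trans hy1
    exact_mod_cast this
  have hm := hmp y z hy2' hyz
  have hzpos : (0 : ℝ) < z := lt_of_lt_of_le (Real.exp_pos _) z1
  have hlogz : (E : ℝ) ≤ Real.log z := by
    rw [Real.le_log_iff_exp_le hzpos]
    exact z1
  have hEpos : (0 : ℝ) < E := by
    have h1 : l ≤ 2 * (E : ℝ) ^ 2 := z5
    by_contra hcon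
    have h3 : (E : ℝ) = 0 := le_antisymm (not_lt.1 hcon) (Nat.cast_nonneg _)
    rw [h3] at h1
    linarith
  have hypos : (0 : ℝ) < y := by linarith
  have hlogy : Real.log y ≤ 6 * Real.log E := by
    calc Real.log y ≤ Real.log (l ^ 2) := Real.log_le_log hypos hy2
      _ = 2 * Real.log l := by rw [Real.log_pow]; norm_num
      _ ≤ 6 * Real.log E := by linarith
  have hlogy0 : 0 ≤ Real.log y := Real.log_nonneg (by linarith)
  have hom : om y z ≤ C * (6 * Real.log E / E) := by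
    refine hm.trans (mul_le_mul_of_nonneg_left ?_ hC.le)
    apply div_le_div₀ (by linarith) hlogy hEpos hlogz
  have hom0 : 0 ≤ C * (6 * Real.log E / E) := le_trans (Pool.Agent.Helper88.PP.om_nonneg y z) hom
  calc (P.card : ℝ) * om y z ≤ (c / (12 * C) * l) * (C * (6 * Real.log E / E)) := by
        apply mul_le_mul hPc hom (Pool.Agent.Helper88.PP.om_nonneg y z)
        exact le_trans (Nat.cast_nonneg _) hPc
    _ ≤ (c / (12 * C) * (2 * (E : ℝ) ^ 2)) * (C * (6 * Real.log E / E)) := by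
        apply mul_le_mul_of_nonneg_right _ hom0
        exact mul_le_mul_of_nonneg_left z5 (by positivity)
    _ = c * (E * Real.log E) := by
        field_simp
        ring

end Pool.Agent.Helper88.GM
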