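import Pool.Agent.Helper88.GM.Goals
import Pool.Agent.Helper88.RR.Fin

/-! # Large gaps between primes in short intervals: the conclusion -/

set_option autoImplicit false

open Finset Filter Topology

open scoped Classical

namespace Pool.Agent.Helper88.GM

open Pool.Agent.Helper88.PP (pr Rg om Sf SS uu vv ee LA VV QQ cost nc dd)
open Pool.Agent.Helper88.LG (idx gap_of_idx coprime_class)
open Pool.Agent.Helper88.RR (StmtRK sizesF logs)

theorem si (hKX : StmtKX) (hRK : StmtRK) : StmtSI := by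
  obtain ⟨c1, hc1, x0, hKX⟩ := hKX
  obtain ⟨C, hC, w0, hRK⟩ := hRK
  set c : ℝ := min (1 / 1000) (c1 / (64 * C)) with hcdef
  have hc : 0 < c := lt_min (by norm_num) (by positivity)
  have hcs : c ≤ 1 / 1000 := min_le_left _ _
  have hcC : c ≤ c1 / (64 * C) := min_le_right _ _
  clear_value c
  obtain ⟨X1, hX1⟩ := sizesF c hc hcs
  have t1 : Tendsto Real.log atTop atTop := Real.tendsto_log_atTop
  obtain ⟨X2, hX2⟩ := eventually_atTop.1 ((t1.eventually_ge_atTop (40 * ((w0 : ℝ) + 1))).and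
    (eventually_ge_atTop ((x0 : ℝ) + 2)))
  refine ⟨c, hc, max X1 X2, fun x hx u hu => ?_⟩
  obtain ⟨s0, s1, s2, s3, s4, s5, s6, s7⟩ := hX1 x (le_trans (le_max_left _ _) hx)
  obtain ⟨s8, s9⟩ := hX2 x (le_trans (le_max_right _ _) hx)
  set l1 := Real.log x with h1
  set l2 := Real.log l1 with h2
  set l3 := Real.log l2 with h3
  set l4 := Real.log l3 with h4
  set G : ℝ := l1 * l2 ^ 2 * l4 / l3 ^ 2 with hG
  -- the integer `x'`
  set x' := ⌊x⌋₊ - 1 with hx'
  have hfl : (2 : ℝ) < (⌊x⌋₊ : ℝ) := by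
    have := Nat.lt_floor_add_one x
    linarith only [hc, hcs, s0, this]
  have hfl2 : 2 < ⌊x⌋₊ := by exact_mod_cast hfl
  have hxx' : (x' : ℝ) + 1 = (⌊x⌋₊ : ℝ) := by
    have : x' + 1 = ⌊x⌋₊ := by omega
    exact_mod_cast this
  have hx'0 : (x' : ℝ) + 1 ≤ x := by
    rw [hxx']
    exact Nat.floor_le (by linarith only [hc, hcs, s0])
  have hx'1 : (x' : ℝ) ≤ x := by linarith only [hc, hcs, hx'0]
  have hx'2 : x < x' + 2 := by
    have := Nat.lt_floor_add_one x
    linarith only [hxx', this]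
  have hx'3 : 1 ≤ x' := by omega
  have hx'4 : x0 ≤ x' := by
    have : (x0 : ℝ) < x' := by linarith only [s9, hx'2]
    have h5 : x0 < x' := by exact_mod_cast this
    omega
  have hx'5 : (98 : ℝ) ≤ x' := by linarith only [s0, hx'2]
  -- the interval
  set u' := ⌈u⌉₊ with hu'
  have hu1 : u ≤ u' := Nat.le_ceil _
  have hu2 : (u' : ℝ) < u + 1 := Nat.ceil_lt_add_one (by linarith only [hc, hcs, hu, s0])
  have hxu : x' ≤ u' := by
    have : (x' : ℝ) ≤ u' := by linarith only [hc, hcs, hu, hx'0, hu1]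
    exact_mod_cast this
  have hlx1 : Real.log x' ≤ l1 := Real.log_le_log (by linarith only [hc, hcs, s0, hx'2]) hx'1
  have hlx2 : l1 - 1 ≤ Real.log x' := by
    have h5 : Real.log x ≤ Real.log (2 * x') := Real.log_le_log (by linarith only [hc, hcs, s0]) (by linarith only [hc, hcs, s0, hx'2])
    rw [Real.log_mul (by norm_num) (by linarith only [hc, hcs, s0, hx'2])] at h5
    have := Real.log_two_lt_d9
    linarith only [hc, hcs, h5, this]
  -- `w`
  set w := ⌊Real.log x' / 20⌋₊ with hw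
  have hlx0 : 0 ≤ Real.log x' / 20 := by linarith only [hc, hcs, s2, hlx2]
  have hw1 : (w : ℝ) ≤ Real.log x' / 20 := Nat.floor_le hlx0
  have hw2 : Real.log x' / 20 < w + 1 := Nat.lt_floor_add_one _
  have hw3 : l1 / 40 ≤ w := by linarith only [hc, hcs, s2, hlx2, hw2]
  have hw4 : (w : ℝ) ≤ l1 := by linarith only [hc, hcs, s2, hlx1, hw1]
  have hw0 : w0 ≤ w := by
    have : (w0 : ℝ) ≤ w := by linarith only [hc, hcs, s2, s8, hlx2, hw2]
    exact_mod_cast this
  obtain ⟨g1, g2, g3, g4⟩ := logs h2 h3 h4 s2 s3 s4 s5 hw3 hw4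
  -- `y`
  have hG0 : 0 ≤ c * G := by linarith only [hc, hcs, s2, s1]
  set y := ⌈c * G⌉₊ with hy
  have hy1 : c * G ≤ y := Nat.le_ceil _
  have hy2 : (y : ℝ) < c * G + 1 := Nat.ceil_lt_add_one hG0
  have hy3 : (y : ℝ) ≤ 2 * (c * G) := by linarith only [hc, hcs, s2, s1, hy2]
  have hwy : w ≤ y := by
    have : (w : ℝ) ≤ y := by linarith only [hc, hcs, s2, s1, hlx1, hw1, hy1]
    exact_mod_cast this
  have hl1y : Real.log x' ≤ y := by linarith only [s1, hlx1, hy1]
  -- `G` is at most `l1 * l2 ^ 2`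
  have hGle : G ≤ l1 * l2 ^ 2 := by
    rw [hG, div_le_iff₀ (by positivity)]
    have : l4 ≤ l3 ^ 2 := by nlinarith only [hcs, s4, s6, hc]
    exact mul_le_mul_of_nonneg_left this (by positivity)
  have hyw : (y : ℝ) ≤ w * Real.log w ^ 2 := by
    calc (y : ℝ) ≤ 2 * (c * G) := hy3
      _ ≤ 2 * (1 / 1000 * (l1 * l2 ^ 2)) := by
          have hG00 : 0 ≤ G := by positivity
          gcongr
      _ ≤ (l1 / 40) * (l2 / 2) ^ 2 := by
          have : 0 ≤ l1 * l2 ^ 2 := by positivity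
          nlinarith only [this]
      _ ≤ w * Real.log w ^ 2 := by
          gcongr
  have hyl : (y : ℝ) ≤ Real.log x' ^ 2 := by
    calc (y : ℝ) ≤ 2 * (c * G) := hy3
      _ ≤ 2 * (1 / 1000 * (l1 * l2 ^ 2)) := by
          have hG00 : 0 ≤ G := by positivity
          gcongr
      _ ≤ 2 * (1 / 1000 * (l1 * (l1 / 16))) := by
          gcongr
          linarith only [s7]
      _ ≤ (l1 - 1) ^ 2 := by nlinarith only [hc, hcs, s2]
      _ ≤ Real.log x' ^ 2 := by
          apply pow_le_pow_left₀ (by linarith only [hc, hcs, s2]) hlx2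
  -- the class
  obtain ⟨a, ha, hcard⟩ := hRK w y hw0 hwy hyw
  set P := (Icc 1 y).filter (fun h => Nat.Coprime (a + h) (primorial w)) with hP
  have hPc : (P.card : ℝ) ≤ c1 * Real.log x' := by
    have g5 : 0 < Real.log (Real.log (Real.log w)) := by linarith only [hc, hcs, s5, g3]
    have g6 : 0 < Real.log w := by linarith only [hc, hcs, s3, g1]
    calc (P.card : ℝ) ≤ C * y * Real.log (Real.log w) ^ 2 /
          (Real.log w ^ 2 * Real.log (Real.log (Real.log w))) := hcard
      _ ≤ C * (2 * (c * G)) * l3 ^ 2 / ((l2 / 2) ^ 2 * (l4 / 2)) := by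
          apply div_le_div₀ (by positivity) _ (by positivity) (by gcongr)
          gcongr
      _ = 16 * C * c * l1 := by
          rw [hG]
          field_simp
          ring
      _ ≤ c1 * (l1 / 2) := by
          have h5 : c * (64 * C) ≤ c1 := by
            rw [le_div_iff₀ (by positivity)] at hcC
            exact hcC
          have h6 : 16 * C * c ≤ c1 / 2 := by linarith only [hc1, h5]
          calc 16 * C * c * l1 ≤ c1 / 2 * l1 := mul_le_mul_of_nonneg_right h6 (by linarith only [hc, hcs, s2])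
            _ = c1 * (l1 / 2) := by ring
      _ ≤ c1 * Real.log x' := by
          apply mul_le_mul_of_nonneg_left _ hc1.le
          linarith only [hc, hcs, s2, hlx2]
  obtain ⟨n, hn, hnp⟩ := hKX x' y hx'4 hl1y hyl u' (u' + x') (QQ x') a
    ⟨dvd_rfl, ha, by omega⟩ (by omega) P (Finset.filter_subset _ _) hPc
  rw [NI, mem_filter, mem_Ioc] at hn
  obtain ⟨⟨hn1, hn2⟩, hn3⟩ := hn
  have hn4 : w < n := by
    have h6 : (w : ℝ) < u' := by
      have h7 : Real.log x' ≤ x' := Real.log_le_self (by linarith only [hc, hcs, s0, hx'2])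
      linarith only [hc, hcs, hu, hx'0, hu1, hw1, h7]
    have h7 : w < u' := by exact_mod_cast h6
    omega
  have hn5 : 2 ≤ n := by omega
  have hfree : ∀ h, 1 ≤ h → h ≤ y → ¬ (n + h).Prime := by
    intro h hh1 hh2 hpr
    by_cases hmem : h ∈ P
    · exact hnp h hmem hpr
    · apply hmem
      rw [hP, mem_filter, mem_Icc]
      refine ⟨⟨hh1, hh2⟩, ?_⟩
      apply coprime_class (n := n) hn3
      exact Pool.Agent.Helper88.LG.coprime_of_prime hpr (by omega)
  obtain ⟨k1, k2⟩ := gap_of_idx hn5 hfree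
  refine ⟨idx n, ?_, ?_, ?_⟩
  · have h5 : ((Nat.nth Nat.Prime (idx n) : ℕ) : ℝ) ≤ n := by exact_mod_cast k1
    have h6 : (n : ℝ) ≤ u' + x' := by exact_mod_cast hn2
    linarith only [hx'0, hu2, h5, h6]
  · have h5 : ((n + y + 1 : ℕ) : ℝ) ≤ (Nat.nth Nat.Prime (idx n + 1) : ℝ) := by
      exact_mod_cast k2
    have h6 : (u' : ℝ) < n := by exact_mod_cast hn1
    have h7 : (0 : ℝ) ≤ y := Nat.cast_nonneg _
    push_cast at h5
    linarith only [hc, hcs, s2, s1, hu1, hy1, h6, h5]
  · have h5 : ((n + y + 1 : ℕ) : ℝ) ≤ (Nat.nth Nat.Prime (idx n + 1) : ℝ) := by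
      exact_mod_cast k2
    have h6 : ((Nat.nth Nat.Prime (idx n) : ℕ) : ℝ) ≤ n := by exact_mod_cast k1
    push_cast at h5
    linarith only [hy1, h6, h5]

end Pool.Agent.Helper88.GM
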