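import Pool.Agent.Helper88.GM.KI
import Pool.Agent.Helper88.GM.KX
import Pool.Agent.Helper88.GM.SI
import Pool.Agent.Helper88.RR.VL
import Pool.Agent.Helper28.RR.RA
import Pool.Agent.Helper31.RR.CB
import Pool.Agent.Helper59.RR.PW
import Pool.Agent.Helper6.RR.BO
import Pool.Agent.Helper73.RR.RK
import Pool.Agent.Helper42.PP.TRE
import Pool.Agent.Helper8.GM.TL
import Pool.Agent.Helper96.GM.TR
import Pool.Agent.Helper6.GM.GT

/-!
# Large gaps between the primes in short intervals: the assembly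
-/

namespace Pool.Agent.Helper88.GM

theorem tsA (gu : StmtGU)
    (ts : StmtGU → StmtTL → StmtTR → Pool.Agent.Helper88.RR.StmtCB → StmtTS) : StmtTS :=
  ts gu (Pool.Agent.Helper8.GM.tl Pool.Agent.Helper6.RR.bo)
    (Pool.Agent.Helper96.GM.tr Pool.Agent.Helper42.PP.tre) Pool.Agent.Helper31.RR.cb

theorem mainSIA (gw : StmtGW) (s1 : StmtTS → StmtGW → StmtS1) (h1 : StmtTS) : StmtSI := by
  have h2 : StmtKI := ki Pool.Agent.Helper88.RR.vl (s1 h1 gw) Pool.Agent.Helper59.RR.pw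
    (Pool.Agent.Helper6.GM.gt h1 gw) Pool.Agent.Helper28.RR.ra
  exact si (kx h2) Pool.Agent.Helper73.RR.rk

end Pool.Agent.Helper88.GM
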