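import Pool.Agent.Helper88.GM.Goals
import Pool.Agent.Helper88.RR.KI

/-! # All primes at the points of `P` can be avoided, in any interval -/

set_option autoImplicit false

open Finset Filter Topology

open scoped Classical

namespace Pool.Agent.Helper88.GM

open Pool.Agent.Helper88.PP (pr Rg om Sf SS uu vv ee LA VV QQ cost nc dd)
open Pool.Agent.Helper88.RR (gg ab TB WB nz wb DB Db VM GB StmtVL StmtPW StmtRA tail params point
  sizes om_nonneg)

theorem XI_pos {x u v Q b : ℕ} (hx : 1 ≤ x) (h : In x u v Q b) : 0 < XI u v Q := by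
  obtain ⟨h1, h2, h3⟩ := h
  unfold XI
  have h4 : 0 < v - u := by omega
  have h5 : 0 < Q := by omega
  have h6 : (0 : ℝ) < ((v - u : ℕ) : ℝ) := by exact_mod_cast h4
  have h7 : (0 : ℝ) < Q := by exact_mod_cast h5
  positivity

theorem ki (hVL : StmtVL) (hS1 : StmtS1) (hPW : StmtPW) (hGT : StmtGT) (hRA : StmtRA) :
    StmtKI := by
  obtain ⟨c1, hc1, hVL⟩ := hVL
  obtain ⟨cS, hcS, ES, hS1⟩ := hS1
  obtain ⟨cG, hcG, EG, hGT⟩ := hGT
  obtain ⟨E1, hE1⟩ := params
  set c : ℝ := min 1 (c1 / 2000) with hc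
  have hc0 : 0 < c := lt_min one_pos (by positivity)
  have hcl : c ≤ c1 / 2000 := min_le_right _ _
  have hcone : c ≤ 1 := min_le_left _ _
  obtain ⟨E2, hE2⟩ := sizes c cS cG hcS hcG
  obtain ⟨L3, hL3⟩ := exists_nat_gt (max 100 (32 / c1))
  refine ⟨c, hc0, max (max (max ES EG) (max E1 E2)) (2 ^ L3 + 300), ?_⟩
  intro E z x y hE hSr u v Q b hIn hxu P hP hPo
  have hEES : ES ≤ E :=
    le_trans (le_trans (le_trans (le_max_left _ _) (le_max_left _ _)) (le_max_left _ _)) hE
  have hEEG : EG ≤ E :=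
    le_trans (le_trans (le_trans (le_max_right _ _) (le_max_left _ _)) (le_max_left _ _)) hE
  have hEE1 : E1 ≤ E :=
    le_trans (le_trans (le_trans (le_max_left _ _) (le_max_right _ _)) (le_max_left _ _)) hE
  have hEE2 : E2 ≤ E :=
    le_trans (le_trans (le_trans (le_max_right _ _) (le_max_right _ _)) (le_max_left _ _)) hE
  have hEL : 2 ^ L3 + 300 ≤ E := le_trans (le_max_right _ _) hE
  have hE300 : 300 ≤ E := le_trans (Nat.le_add_left _ _) hEL
  have hEL3 : 2 ^ L3 ≤ E := le_trans (Nat.le_add_right _ _) hEL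
  clear_value c
  obtain ⟨m, hm1, hqm, hjqm, hK⟩ := hE1 E hEE1
  obtain ⟨s1, s2, s3, s4, s5⟩ := hE2 E hEE2
  set L := Nat.log 2 E with hL
  set q := 2 ^ (L / 4) with hq
  have hE0 : E ≠ 0 := by omega
  have hEr : (300 : ℝ) ≤ E := by exact_mod_cast hE300
  have hEpos : (0 : ℝ) < E := by linarith only [hEr]
  have hLL : L3 ≤ L := Nat.le_log_of_pow_le (by norm_num) hEL3
  have hLr : (L3 : ℝ) ≤ L := by exact_mod_cast hLL
  have hL100 : (100 : ℝ) ≤ L := le_trans (le_of_lt (lt_of_le_of_lt (le_max_left _ _) hL3)) hLr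
  have hLc : 32 / c1 ≤ L := le_trans (le_of_lt (lt_of_le_of_lt (le_max_right _ _) hL3)) hLr
  have hLc' : 32 ≤ c1 * L := by
    rw [div_le_iff₀ hc1] at hLc
    linarith only [hLc]
  have hpow1 : 2 ^ L ≤ E := Nat.pow_log_le_self 2 hE0
  have hpow2 : E < 2 ^ (L + 1) := Nat.lt_pow_succ_log_self (by norm_num) E
  have hlogE : Real.log E ≤ L + 1 := by
    have h1 : (E : ℝ) ≤ 2 ^ (L + 1) := by exact_mod_cast hpow2.le
    have h2 : Real.log E ≤ Real.log ((2 : ℝ) ^ (L + 1)) := Real.log_le_log hEpos h1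
    rw [Real.log_pow] at h2
    have h3 := Real.log_two_lt_d9
    have h4 : (0 : ℝ) ≤ ((L + 1 : ℕ) : ℝ) := Nat.cast_nonneg _
    push_cast at h2 h4
    nlinarith only [hL100, h3, h2]
  -- the size of `z`
  obtain ⟨hz1, hx1, hx2, hy1, hy2, hy3⟩ := hSr
  have hz2' : 2 ≤ z := by
    have h1 : (2 : ℝ) ≤ z := by
      have := Real.add_one_le_exp (E : ℝ)
      linarith only [hEr, hz1, this]
    exact_mod_cast h1
  -- the size of `V`
  set V := VV z m (q * m) with hV
  have hVlow : c1 * L / 8 ≤ V := by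
    have h1 := hVL (L / 4) m z hm1 hz2'
    have h2 : ((L : ℝ) - 3) / 4 ≤ ((L / 4 : ℕ) : ℝ) := by
      have : L ≤ 4 * (L / 4) + 3 := by omega
      have h3 : (L : ℝ) ≤ 4 * ((L / 4 : ℕ) : ℝ) + 3 := by exact_mod_cast this
      linarith only [h3]
    have h3 := mul_le_mul_of_nonneg_left h2 hc1.le
    have h4 : c1 * L / 8 ≤ c1 * (((L : ℝ) - 3) / 4) - 1 := by nlinarith only [hc0, hcl, hLc', hc1, hL100]
    exact h4.trans (le_trans (by linarith only [h3]) h1)
  have hV1 : 1 ≤ V := by linarith only [hLc', hVlow]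
  have hV0 : V ≠ 0 := by linarith only [hLc', hVlow]
  have hVpos : 0 < V := by linarith only [hLc', hVlow]
  have hVlog : c1 / 16 * Real.log E ≤ V := by
    refine le_trans ?_ hVlow
    have : Real.log E ≤ 2 * L := by linarith only [hL100, hlogE]
    nlinarith only [hc0, hcl, hc1, hL100, hlogE]
  -- the hypotheses on `P`
  have hom := om_nonneg y z
  have hPo2 : (P.card : ℝ) * om y z ≤ (E : ℝ) ^ 2 := by
    refine hPo.trans ?_
    have h1 : Real.log E ≤ E := by linarith only [s2, hEr]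
    calc c * (E * Real.log E) ≤ 1 * (E * E) := by
          apply mul_le_mul hcone _ (by positivity) (by norm_num)
          exact mul_le_mul_of_nonneg_left h1 hEpos.le
      _ = (E : ℝ) ^ 2 := by ring
  have hPy : P.card ≤ y := by
    have := Finset.card_le_card hP
    rwa [Nat.card_Icc, Nat.add_sub_cancel] at this
  have hSr : Sr E z x y := ⟨hz1, hx1, hx2, hy1, hy2, hy3⟩
  have hM2 : 2 ≤ E / 16 := by omega
  have hMr : (E : ℝ) / 17 ≤ ((E / 16 : ℕ) : ℝ) := by
    have : E ≤ 17 * (E / 16) := by clear hjqm hK; omega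
    have h3 : (E : ℝ) ≤ 17 * ((E / 16 : ℕ) : ℝ) := by exact_mod_cast this
    linarith only [h3]
  have hyz0 : 0 + y ≤ z := by
    have hx0 : (0 : ℝ) < x := by
      have : 0 < x := lt_of_lt_of_le (pow_pos (by omega) E) hx1
      exact_mod_cast this
    have hlx : (E : ℝ) ≤ Real.log x := by
      have h1 : (z : ℝ) ^ E ≤ x := by exact_mod_cast hx1
      have hzp : (0 : ℝ) < z := lt_of_lt_of_le (Real.exp_pos _) hz1
      have h2 : Real.log ((z : ℝ) ^ E) ≤ Real.log x := Real.log_le_log (by positivity) h1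
      rw [Real.log_pow] at h2
      have h3 : (E : ℝ) ≤ Real.log z := by
        rw [Real.le_log_iff_exp_le hzp]
        exact hz1
      nlinarith only [hEr, h2, h3]
    have hl0 : 0 < Real.log x := by linarith only [hEr, hlx]
    have h4 : 2 * Real.log (Real.log x) ≤ E := by
      by_contra hcon
      push Not at hcon
      have h5 : (150 : ℝ) ≤ Real.log (Real.log x) := by linarith only [hEr, hcon]
      have h6 : (2 : ℝ) ≤ Real.log (Real.log x) ^ 2 := by nlinarith only [hEr, hcon]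
      have h7 : Real.log (Real.log x) ^ 3 =
        Real.log (Real.log x) * Real.log (Real.log x) ^ 2 := by ring
      nlinarith
    have h8 : (y : ℝ) ≤ z := by
      refine hy2.trans (le_trans (le_of_eq ?_) ((Real.exp_le_exp.2 h4).trans hz1))
      rw [two_mul, Real.exp_add, Real.exp_log hl0, sq]
    have h9 : y ≤ z := by exact_mod_cast h8
    omega
  have hP0 : P ⊆ Icc (0 + 1) (0 + y) := by
    rw [Nat.zero_add, Nat.zero_add]
    exact hP
  obtain ⟨hD1, hS⟩ := hS1 E z x y hEES hSr u v Q b hIn m q hm1 hqm hV1 hK 0 hyz0 P hP0 hPo2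
  have hG := hGT E z x y hEEG hSr u v Q b hIn m q hm1 hqm hV1 hK 0 hyz0 P hP0 hPo2
  set D := DB m q (E / 16) z y P with hD
  -- the tail
  have htail := tail hRA m q (E / 16) z y (2 * L) P hPy hV0 hjqm (by
    refine le_trans ?_ hMr
    rw [← hV]
    have h1 : (P.card : ℝ) * om y z * (1 / V) ≤ c * (E * Real.log E) * (1 / V) :=
      mul_le_mul_of_nonneg_right hPo (by positivity)
    have h2 : c * (E * Real.log E) * (1 / V) ≤ E / 100 := by
      rw [mul_one_div, div_le_iff₀ hVpos]
      have h3 : c * Real.log E ≤ V / 100 := by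
        calc c * Real.log E ≤ c1 / 2000 * Real.log E :=
              mul_le_mul_of_nonneg_right hcl (by linarith only [s1])
          _ ≤ V / 100 := by
              have : 0 ≤ c1 * Real.log E := by positivity
              linarith only [hLc', hVlow, hVlog]
      calc c * (E * Real.log E) = E * (c * Real.log E) := by ring
        _ ≤ E * (V / 100) := mul_le_mul_of_nonneg_left h3 hEpos.le
        _ = E / 100 * V := by ring
    linarith only [hEr, h1, h2])
  rw [← hD] at htail
  set Sig := ∑ r ∈ (TB m q (E / 16) z P).filter (fun r => E / 16 < cost z r + q * m),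
    wb m q y z r with hSig
  have hpow : (E : ℝ) ^ 2 / 4 ≤ 2 ^ (2 * L) := by
    have h1 : (E : ℝ) ≤ 2 ^ (L + 1) := by exact_mod_cast hpow2.le
    have h2 : (E : ℝ) / 2 ≤ 2 ^ L := by
      rw [pow_succ] at h1
      linarith only [h1]
    calc (E : ℝ) ^ 2 / 4 = (E / 2) ^ 2 := by ring
      _ ≤ (2 ^ L) ^ 2 := pow_le_pow_left₀ (by positivity) h2 2
      _ = 2 ^ (2 * L) := by rw [← pow_mul, mul_comm]
  have hSigD : Sig ≤ 4 / (E : ℝ) ^ 2 * D := by
    have hD0 : 0 ≤ D := by linarith only [hD1]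
    by_cases hs : Sig ≤ 0
    · exact hs.trans (by positivity)
    · push Not at hs
      have h1 : (E : ℝ) ^ 2 / 4 * Sig ≤ D :=
        le_trans (mul_le_mul_of_nonneg_right hpow hs.le) htail
      have hE2 : (0 : ℝ) < (E : ℝ) ^ 2 := by positivity
      rw [div_mul_eq_mul_div, le_div_iff₀ hE2]
      linarith only [h1]
  -- contradiction
  by_contra hcon
  push Not at hcon
  have hXX : 0 < XI u v Q := XI_pos (le_trans (Nat.one_le_pow _ _ (by omega)) hx1) hIn
  have hA : ∑ n ∈ NI u v Q b, WB m q (E / 16) z y P n ^ 2 ≤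
      ∑ n ∈ NI u v Q b, ∑ h : P, GB m q (E / 16) z y P h n ^ 2 := by
    refine Finset.sum_le_sum fun n hn => ?_
    have hn1 : u < n := (Finset.mem_Ioc.mp (Finset.mem_filter.mp hn).1).1
    have hzn : z ^ (E / 16) ≤ n := by
      have h6 : z ^ (E / 16) * 2 ≤ x := by
        refine le_trans ?_ hx1
        calc z ^ (E / 16) * 2 ≤ z ^ (E / 16) * z := Nat.mul_le_mul_left _ hz2'
          _ = z ^ (E / 16 + 1) := (pow_succ _ _).symm
          _ ≤ z ^ E := Nat.pow_le_pow_right (by omega) (by omega)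
      omega
    refine le_trans ?_ (point hPW m q (E / 16) z y n P hM2 hm1 hz2' hV0 hqm hzn)
    obtain ⟨h, hh, hpr⟩ := hcon n hn
    have h1 : 1 ≤ (P.filter (fun h => (n + h).Prime)).card :=
      Finset.card_pos.2 ⟨h, Finset.mem_filter.2 ⟨hh, hpr⟩⟩
    have h2 : (1 : ℝ) ≤ ((P.filter (fun h => (n + h).Prime)).card : ℝ) := by exact_mod_cast h1
    exact le_mul_of_one_le_right (sq_nonneg _) h2
  rw [Finset.sum_comm] at hA
  have hB := hA.trans (Finset.sum_le_sum fun h _ => hG h)
  rw [Finset.sum_const, nsmul_eq_mul, Finset.card_univ, Fintype.card_coe] at hB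
  have hlow : XI u v Q * D / 2 ≤ ∑ n ∈ NI u v Q b, WB m q (E / 16) z y P n ^ 2 := by
    have h1 := (abs_le.1 hS).1
    have h2 : Real.exp (-(cS * E)) * XI u v Q ≤ 1 / 2 * (XI u v Q * D) := by
      calc Real.exp (-(cS * E)) * XI u v Q ≤ 1 / 2 * XI u v Q :=
            mul_le_mul_of_nonneg_right s5 hXX.le
        _ ≤ 1 / 2 * (XI u v Q * D) := by nlinarith only [hD1, hXX]
    linarith only [h1, h2]
  have hup : (P.card : ℝ) * (XI u v Q * om y z * (Sig + Real.exp (-(cG * E)))) ≤ XI u v Q * D / 4 := by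
    have hD0 : 0 ≤ D := by linarith only [hD1]
    have hSig0 : Sig + Real.exp (-(cG * E)) ≤
        4 / (E : ℝ) ^ 2 * D + Real.exp (-(cG * E)) * D := by
      have h1 : Real.exp (-(cG * E)) ≤ Real.exp (-(cG * E)) * D :=
        le_mul_of_one_le_right (Real.exp_pos _).le hD1
      linarith only [hSigD, h1]
    have hPom : 0 ≤ (P.card : ℝ) * om y z := mul_nonneg (Nat.cast_nonneg _) hom
    calc (P.card : ℝ) * (XI u v Q * om y z * (Sig + Real.exp (-(cG * E))))
        = XI u v Q * ((P.card : ℝ) * om y z * (Sig + Real.exp (-(cG * E)))) := by ring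
      _ ≤ XI u v Q * ((P.card : ℝ) * om y z *
            (4 / (E : ℝ) ^ 2 * D + Real.exp (-(cG * E)) * D)) := by gcongr
      _ ≤ XI u v Q * (c * (E * Real.log E) *
            (4 / (E : ℝ) ^ 2 * D + Real.exp (-(cG * E)) * D)) := by
          have : 0 ≤ 4 / (E : ℝ) ^ 2 * D + Real.exp (-(cG * E)) * D := by positivity
          gcongr
      _ = XI u v Q * D * (c * (E * Real.log E) * (4 / (E : ℝ) ^ 2) +
            c * (E * Real.log E) * Real.exp (-(cG * E))) := by ring
      _ ≤ XI u v Q * D * (1 / 8 + 1 / 8) :=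
          mul_le_mul_of_nonneg_left (add_le_add s3 s4) (by positivity)
      _ = XI u v Q * D / 4 := by ring
  have h9 := hlow.trans (hB.trans hup)
  have h10 : 0 < XI u v Q * D := mul_pos hXX (by linarith only [hD1])
  linarith only [hB, hlow, hup, h10]

end Pool.Agent.Helper88.GM
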