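import Pool.Agent.Helper88.RR.Goals

/-!
# Large gaps between the primes in short intervals, and their frequency: statements

The weights of `RR`, now for the integers `n ∈ (u, v]` in a class `b` modulo a divisor `Q` of
`QQ x`, where `x ≤ 2 (v - u)`, and for sets of points `P` which may lie anywhere in `[1, z]`.
The roughness condition is about the primes in `(y, z]`; now different points may be congruent
modulo such a prime, and the density of the roughness condition at the points `B` is `gB y z B`.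
-/

set_option autoImplicit false

open Finset Filter Topology

open scoped Classical

namespace Pool.Agent.Helper88.GM

open Pool.Agent.Helper88.PP (pr Rg om Sf SS uu vv ee LA VV QQ cost nc dd)
open Pool.Agent.Helper88.RR (gg ab TB WB nz wb DB Db VM GB)

/-- the integers of `(u, v]` in the class `b` modulo `Q` -/
noncomputable def NI (u v Q b : ℕ) : Finset ℕ := (Ioc u v).filter (fun n => n % Q = b)

/-- about the number of elements of `NI u v Q b` -/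
noncomputable def XI (u v Q : ℕ) : ℝ := ((v - u : ℕ) : ℝ) / Q

/-- the density of the integers `n` such that no `n + i`, `i ∈ B`, has a prime factor in
`(y, z]` -/
noncomputable def gB (y z : ℕ) (B : Finset ℕ) : ℝ :=
  ∏ p ∈ pr y z, (1 - ((B.image (fun i => i % p)).card : ℝ) / p)

/-- `z = x^(1/E)`, `z ≥ exp E`, `log x ≤ y ≤ (log x)^2`, `(log log x)^3 ≤ E` -/
def Sr (E z x y : ℕ) : Prop :=
  Real.exp E ≤ z ∧ z ^ E ≤ x ∧ x < (z + 1) ^ E ∧ Real.log x ≤ y ∧ (y : ℝ) ≤ Real.log x ^ 2 ∧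
    Real.log (Real.log x) ^ 3 ≤ E

/-- the interval `(u, v]` and the class `b` modulo `Q` -/
def In (x u v Q b : ℕ) : Prop := Q ∣ QQ x ∧ b < Q ∧ x ≤ 2 * (v - u)

/-- the points with a nonzero label -/
noncomputable def sp {P : Finset ℕ} (r : P → ℕ) : Finset ℕ :=
  (univ.filter (fun i => r i ≠ 0)).image (fun i : P => (i : ℕ))

/-! ### sieve -/

/-- few collisions: almost independence of the roughness at two disjoint sets of points -/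
def StmtGL : Prop := ∀ (y z : ℕ) (B B' : Finset ℕ), 1 ≤ y → B ⊆ Icc 1 z → B' ⊆ Icc 1 z →
  Disjoint B B' → 4 * B.card ≤ y → 4 * B'.card ≤ y →
  gB y z (B ∪ B') ≤ gB y z B * gB y z B' *
    Real.exp (4 * ((B.card : ℝ) * B'.card) * Real.log z / y)

/-- the density of the roughness at few points -/
def StmtGU : Prop := ∀ (y z : ℕ) (B : Finset ℕ), 1 ≤ y → B ⊆ Icc 1 z → 4 * B.card ≤ y →
  (B.card : ℝ) ^ 2 * Real.log z ≤ y →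
  0 ≤ gB y z B ∧ gB y z B ≤ 1 ∧ gB y z B ≤ (8 * om y z) ^ B.card

/-- points in a window of length `y` are different modulo all primes `> y` -/
def StmtGW : Prop := ∀ (y z t : ℕ) (B : Finset ℕ), B ⊆ Icc (t + 1) (t + y) →
  gB y z B = gg y z B.card

/-- counting in the class `b`, with roughness and divisibility conditions at few points, with a
very small error -/
def StmtTL : Prop := ∃ c : ℝ, 0 < c ∧ ∃ E0 : ℕ, ∀ E z x y : ℕ, E0 ≤ E → Sr E z x y →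
  ∀ u v Q b : ℕ, In x u v Q b → ∀ B : Finset ℕ, B ⊆ Icc 1 z → B.card ^ 2 ≤ E →
  ∀ d : ℕ → ℕ, (∀ i ∈ B, Sf z (d i)) → ∏ i ∈ B, d i ≤ z ^ (E / 4) →
  ((∀ i ∈ B, ∀ j ∈ B, i ≠ j → Nat.Coprime (d i) (d j)) →
    |(((NI u v Q b).filter (fun n => ∀ i ∈ B, d i ∣ n + i ∧ Rg y z (n + i))).card : ℝ)
      - XI u v Q * (gB y z B * ∏ i ∈ B, (1 / (d i : ℝ)))|
      ≤ Real.exp (-(c * E)) * (XI u v Q * ∏ i ∈ B, (om y z / d i)))
  ∧ (¬ (∀ i ∈ B, ∀ j ∈ B, i ≠ j → Nat.Coprime (d i) (d j)) →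
    ((NI u v Q b).filter (fun n => ∀ i ∈ B, d i ∣ n + i ∧ Rg y z (n + i))).card = 0)

/-- the second moment of a function given by labels; the density of the roughness condition at
the points `B` is `ga B` -/
def StmtTR : Prop := ∀ (ι : Type) [Fintype ι] [DecidableEq ι] (pt : ι → ℕ) (y z X D K : ℕ)
  (N : Finset ℕ) (Y o δ C : ℝ) (ga : Finset ι → ℝ) (T : Finset (ι → ℕ)) (c : (ι → ℕ) → ℝ)
  (al : ι → ℕ → ℝ) (BB : Finset (Finset ι)),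
  2 ≤ z → 0 ≤ Y → 0 ≤ o → 0 ≤ δ → 1 ≤ C → (∀ B ∈ BB, 0 ≤ ga B ∧ ga B ≤ o ^ B.card) →
  (∀ r ∈ T, ∀ i, r i = 0 ∨ r i ∈ SS z X) →
  (∀ r ∈ T, ∀ s ∈ T, ∀ i, r i = 1 → s i ≠ 0) →
  (∀ r ∈ T, (∏ i, max 1 (r i)) ^ 2 ≤ D) →
  (∀ r ∈ T, ∀ s ∈ T, (univ.filter (fun i => r i ≠ 0 ∨ s i ≠ 0)) ∈ BB) →
  (∀ B ∈ BB, B.card ≤ K) →
  (∀ i r, 0 ≤ al i r) → (∀ i, al i 0 ≤ 1) → (∀ r ∈ T, |c r| ≤ ∏ i, al i (r i)) →
  (∀ i, ∀ d ∈ SS z X, (d : ℝ) * ∑ r ∈ (SS z X).filter (fun r => d ∣ r), al i r ≤ C) →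
  (∀ d : ι → ℕ, (∀ i, d i = 0 ∨ Sf z (d i)) → ∏ i, max 1 (d i) ≤ D →
    (univ.filter (fun i => d i ≠ 0)) ∈ BB →
    ((∀ i j, i ≠ j → d i ≠ 0 → d j ≠ 0 → Nat.Coprime (d i) (d j)) →
      |((N.filter (fun n => ∀ i, d i ≠ 0 → d i ∣ n + pt i ∧ Rg y z (n + pt i))).card : ℝ)
        - Y * (ga (univ.filter (fun i => d i ≠ 0)) *
            ∏ i, (if d i = 0 then 1 else 1 / (d i : ℝ)))|
        ≤ δ * (Y * ∏ i, dd o (d i)))
    ∧ (¬ (∀ i j, i ≠ j → d i ≠ 0 → d j ≠ 0 → Nat.Coprime (d i) (d j)) →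
      (N.filter (fun n => ∀ i, d i ≠ 0 → d i ∣ n + pt i ∧ Rg y z (n + pt i))).card = 0)) →
  |∑ n ∈ N, (∑ r ∈ T, c r * ∏ i, vv y z (r i) (n + pt i)) ^ 2
      - Y * ∑ r ∈ T, c r ^ 2 * (ga (univ.filter (fun i => r i ≠ 0)) *
          ∏ i, (if r i = 0 then 1 else (Nat.totient (r i) : ℝ)))|
    ≤ Y * (δ + 9 * K ^ 2 / z) *
      ∑ B ∈ BB, (o * (3 * C ^ 2 * ∑ e ∈ SS z (X ^ 2), (3 : ℝ) ^ e.primeFactors.card / e)) ^ B.card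

/-- the second moment of a function given by labels, for our parameters; `F` is a set of at most
one point where all labels are nonzero -/
def StmtTS : Prop := ∃ c : ℝ, 0 < c ∧ ∃ E0 : ℕ, ∀ E z x y : ℕ, E0 ≤ E → Sr E z x y →
  ∀ u v Q b : ℕ, In x u v Q b → ∀ m q K : ℕ, 1 ≤ m → q * m ≤ E / 16 → 1 ≤ VV z m (q * m) →
  K ^ 3 ≤ E → ∀ P : Finset ℕ, P ⊆ Icc 1 z → (P.card : ℝ) * om y z ≤ (E : ℝ) ^ 2 →
  ∀ (T : Finset (P → ℕ)) (a : (P → ℕ) → ℝ) (F : Finset P), F.card ≤ 1 →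
  (∀ r ∈ T, ∀ i, i ∉ F → (r i = 0 ∨ r i ∈ LA z m (q * m))) →
  (∀ r ∈ T, ∀ i ∈ F, r i ∈ SS z (z ^ (E / 16))) →
  (∀ r ∈ T, nz r ≤ K) →
  (∀ r ∈ T, ∏ i, max 1 (r i) ≤ z ^ (2 * (E / 16))) →
  (∀ r ∈ T, |a r| ≤ ∏ i, (if i ∈ F then 1 / (VM (E / 16) z * (Nat.totient (r i) : ℝ)) else
    if r i = 0 then 1 else ab m q z (r i))) →
  |∑ n ∈ NI u v Q b, (∑ r ∈ T, a r * ∏ i, vv y z (r i) (n + (i : ℕ))) ^ 2
      - XI u v Q * ∑ r ∈ T, a r ^ 2 *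
        (gB y z (sp r) * ∏ i, (if r i = 0 then 1 else (Nat.totient (r i) : ℝ)))|
    ≤ Real.exp (-(c * E)) * om y z ^ F.card * XI u v Q

/-! ### the moments of the weight -/

/-- the mean square -/
def StmtS1 : Prop := ∃ c : ℝ, 0 < c ∧ ∃ E0 : ℕ, ∀ E z x y : ℕ, E0 ≤ E → Sr E z x y →
  ∀ u v Q b : ℕ, In x u v Q b → ∀ m q : ℕ, 1 ≤ m → q * m ≤ E / 16 → 1 ≤ VV z m (q * m) →
  (E / 16 / m + 1) ^ 3 ≤ E → ∀ t : ℕ, t + y ≤ z →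
  ∀ P : Finset ℕ, P ⊆ Icc (t + 1) (t + y) → (P.card : ℝ) * om y z ≤ (E : ℝ) ^ 2 →
    1 ≤ DB m q (E / 16) z y P ∧
    |∑ n ∈ NI u v Q b, WB m q (E / 16) z y P n ^ 2 - XI u v Q * DB m q (E / 16) z y P|
      ≤ Real.exp (-(c * E)) * XI u v Q

/-- the mean square of `GB` -/
def StmtGT : Prop := ∃ c : ℝ, 0 < c ∧ ∃ E0 : ℕ, ∀ E z x y : ℕ, E0 ≤ E → Sr E z x y →
  ∀ u v Q b : ℕ, In x u v Q b → ∀ m q : ℕ, 1 ≤ m → q * m ≤ E / 16 → 1 ≤ VV z m (q * m) →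
  (E / 16 / m + 1) ^ 3 ≤ E → ∀ t : ℕ, t + y ≤ z →
  ∀ P : Finset ℕ, P ⊆ Icc (t + 1) (t + y) → (P.card : ℝ) * om y z ≤ (E : ℝ) ^ 2 → ∀ h : P,
    ∑ n ∈ NI u v Q b, GB m q (E / 16) z y P h n ^ 2 ≤ XI u v Q * om y z *
      (∑ r ∈ (TB m q (E / 16) z P).filter (fun r => E / 16 < cost z r + q * m), wb m q y z r
        + Real.exp (-(c * E)))

/-- the mean of the product of the squares, for two windows -/
def StmtS3 : Prop := ∀ ε : ℝ, 0 < ε → ∃ E0 : ℕ, ∀ E z x y : ℕ, E0 ≤ E → Sr E z x y →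
  ∀ u v Q b : ℕ, In x u v Q b → ∀ m q : ℕ, 1 ≤ m → q * m ≤ E / 16 → 1 ≤ VV z m (q * m) →
  (2 * (E / 16 / m + 1)) ^ 3 ≤ E → ∀ t t' : ℕ, t + y ≤ t' → t' + y ≤ z →
  ∀ P P' : Finset ℕ, P ⊆ Icc (t + 1) (t + y) → P' ⊆ Icc (t' + 1) (t' + y) →
  ((P.card : ℝ) + P'.card) * om y z ≤ (E : ℝ) ^ 2 →
    ∑ n ∈ NI u v Q b, WB m q (E / 16) z y P n ^ 2 * WB m q (E / 16) z y P' n ^ 2 ≤
      (1 + ε) * (XI u v Q * (DB m q (E / 16) z y P * DB m q (E / 16) z y P'))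

/-- a bound for the weight at a single integer -/
def StmtSU : Prop := ∃ E0 : ℕ, ∀ E z x y : ℕ, E0 ≤ E → Sr E z x y → ∀ m q : ℕ, 1 ≤ m →
  q * m ≤ E / 16 → 1 ≤ VV z m (q * m) → (E / 16 / m + 1) ^ 3 ≤ E →
  ∀ P : Finset ℕ, P.card ≤ y → P ⊆ Icc 1 z → ∀ n : ℕ, n ≤ x →
    WB m q (E / 16) z y P n ^ 2 ≤ Real.exp ((E : ℝ) ^ 2 / 2)

/-! ### killing the primes -/

/-- all primes at the points of `P` can be avoided -/
def StmtKI : Prop := ∃ c : ℝ, 0 < c ∧ ∃ E0 : ℕ, ∀ E z x y : ℕ, E0 ≤ E → Sr E z x y →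
  ∀ u v Q b : ℕ, In x u v Q b → x ≤ 2 * u → ∀ P : Finset ℕ, P ⊆ Icc 1 y →
  (P.card : ℝ) * om y z ≤ c * (E * Real.log E) → ∃ n ∈ NI u v Q b, ∀ h ∈ P, ¬ (n + h).Prime

/-- the same in terms of `x` -/
def StmtKX : Prop := ∃ c : ℝ, 0 < c ∧ ∃ x0 : ℕ, ∀ x y : ℕ, x0 ≤ x → Real.log x ≤ y →
  (y : ℝ) ≤ Real.log x ^ 2 → ∀ u v Q b : ℕ, In x u v Q b → x ≤ 2 * u →
  ∀ P : Finset ℕ, P ⊆ Icc 1 y → (P.card : ℝ) ≤ c * Real.log x →
  ∃ n ∈ NI u v Q b, ∀ h ∈ P, ¬ (n + h).Prime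

/-- for most `n` there is a window in which all primes are avoided -/
def StmtKB : Prop := ∃ c : ℝ, 0 < c ∧ ∀ ε : ℝ, 0 < ε → ∃ E0 : ℕ, ∀ E z x y : ℕ, E0 ≤ E →
  Sr E z x y → ∀ Q b : ℕ, Q ∣ QQ x → b < Q → ∀ (J : Finset ℕ) (P : ℕ → Finset ℕ),
  Real.exp ((E : ℝ) ^ 2) ≤ J.card → (∀ t ∈ J, t + y ≤ z) →
  (∀ t ∈ J, ∀ t' ∈ J, t < t' → t + y ≤ t') → (∀ t ∈ J, P t ⊆ Icc (t + 1) (t + y)) →
  (∀ t ∈ J, ((P t).card : ℝ) * om y z ≤ c * (E * Real.log E)) →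
  (((NI (x / 2) x Q b).filter (fun n => ∀ t ∈ J, ∃ h ∈ P t, (n + h).Prime)).card : ℝ)
    ≤ ε * XI (x / 2) x Q

/-! ### gaps -/

/-- almost all integers are close to a long interval without primes -/
def StmtMO : Prop := ∀ η : ℝ, 0 < η → ∃ C : ℝ, 1 ≤ C ∧ ∃ x0 : ℕ, ∀ x : ℕ, x0 ≤ x → ∀ lam : ℝ,
  Real.log (Real.log (Real.log x)) ≤ lam → C * lam ≤ Real.log (Real.log x) →
  (((Ioc (x / 2) x).filter (fun n => ∀ t : ℕ, (t : ℝ) ≤ Real.exp (Real.exp (C * lam)) →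
    ∃ p, p.Prime ∧ n + t < p ∧ p ≤ n + t + ⌈lam * Real.log x⌉₊)).card : ℝ) ≤ η * x

/-- large gaps in short intervals -/
def StmtSI : Prop := ∃ c : ℝ, 0 < c ∧ ∃ H : ℝ, ∀ h : ℝ, H ≤ h → ∀ u : ℝ, h ≤ u → ∃ n : ℕ,
  (Nat.nth Nat.Prime n : ℝ) ≤ u + h ∧ u < Nat.nth Nat.Prime (n + 1) ∧
  c * (Real.log h * Real.log (Real.log h) ^ 2 *
      Real.log (Real.log (Real.log (Real.log h))) / Real.log (Real.log (Real.log h)) ^ 2)
    ≤ (Nat.nth Nat.Prime (n + 1) : ℝ) - Nat.nth Nat.Prime n - 1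

/-- the frequency of large gaps -/
def StmtUF : Prop := ∃ c C : ℝ, 0 < c ∧ ∃ X : ℝ, ∀ x : ℝ, X ≤ x → ∀ lam : ℝ,
  Real.log (Real.log (Real.log x)) ≤ lam → lam ≤ c * Real.log (Real.log x) →
  x * Real.exp (-Real.exp (C * lam))
    ≤ ({n : ℕ | (Nat.nth Nat.Prime n : ℝ) ≤ x ∧
        lam * Real.log x ≤ (Nat.nth Nat.Prime (n + 1) : ℝ) - Nat.nth Nat.Prime n - 1}.ncard : ℝ)

end Pool.Agent.Helper88.GM
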