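import Pool.Agent.Helper88.GM.Main
import Pool.Agent.Helper13.GM.S3
import Pool.Agent.Helper5.GM.SU
import Pool.Agent.Helper73.GM.KB
import Pool.Agent.Helper85.GM.UF
import Pool.Agent.Helper33.LG.UU
import Pool.Agent.Helper67.LG.PR

/-!
# The frequency of large gaps between the primes
-/

namespace Pool.Agent.Helper88.GM

theorem mainKB : StmtKB :=
  Pool.Agent.Helper73.GM.kb (Pool.Agent.Helper32.GM.s1 tsMain Pool.Agent.Helper31.GM.gw)
    (Pool.Agent.Helper6.GM.gt tsMain Pool.Agent.Helper31.GM.gw)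
    (Pool.Agent.Helper13.GM.s3 Pool.Agent.Helper31.GM.gl tsMain Pool.Agent.Helper31.GM.gw)
    (Pool.Agent.Helper5.GM.su Pool.Agent.Helper31.RR.cb)
    (Pool.Agent.Helper8.GM.tl Pool.Agent.Helper6.RR.bo)

theorem mainUFA (mo : StmtKB → StmtMO) : StmtUF :=
  Pool.Agent.Helper85.GM.uf (mo mainKB) (Pool.Agent.Helper33.LG.uu Pool.Agent.Helper67.LG.pr)

end Pool.Agent.Helper88.GM
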